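import Pool.Agent.Q38.TR.Final

/-!
# Largest induced subtree, radius and minimum degree

For every finite connected graph `G` with at least two vertices, `tree(G) ≥ 2 rad(G) / δ(G)`.
The open case is `δ(G) = 1`: a connected graph of radius `r` with a vertex of degree one has an
induced tree on `2 r` vertices.
-/

set_option autoImplicit false

namespace Pool.Agent.Results.MP_40785c_co.LeafTree

open SimpleGraph Q38.TR

/-- `tree(G)`: the largest number of vertices of an induced subtree of `G`. -/
noncomputable def treeNumber {V : Type*} (G : SimpleGraph V) : ℕ :=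
  sSup {n | ∃ S : Set V, (G.induce S).IsTree ∧ S.ncard = n}

theorem leaf_tree (n : ℕ) : ∀ (V : Type*) [Fintype V] (G : SimpleGraph V), Fintype.card V = n →
    G.Connected → ∀ (r : ℕ), 2 ≤ r → (∀ u, ∃ w, r ≤ G.dist u w) → ∀ l a : V,
    (∀ y, G.Adj l y → y = a) → ∃ m S, TS G m S ∧ 2 * r ≤ m := by
  classical
  induction n using Nat.strong_induction_on with
  | _ n ih =>
  intro V _ G hcard hG r hr hecc l a hl
  obtain ⟨v, hv⟩ : ∃ v, ∀ u, G.dist l u ≤ G.dist l v := by
    have : Nonempty V := ⟨l⟩
    exact Finite.exists_max (fun u => G.dist l u)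
  have hlv : r ≤ G.dist l v := by
    obtain ⟨w, hw⟩ := hecc l
    exact hw.trans (hv w)
  have hlne : l ≠ v := by
    rintro rfl
    rw [SimpleGraph.dist_self] at hlv
    omega
  -- the graph without `v`
  set W : Set V := {u | u ≠ v} with hW
  set H : SimpleGraph W := G.induce W with hH
  have hadjH : ∀ a b : W, H.Adj a b ↔ G.Adj a.1 b.1 := fun a b => by rw [hH]; simp
  have hreach : ∀ k, ∀ u : W, G.dist l u.1 = k → H.Reachable ⟨l, hlne⟩ u := by
    intro k
    induction k with
    | zero =>
      intro u hu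
      have : l = u.1 := (hG.dist_eq_zero_iff).mp hu
      have h2 : (⟨l, hlne⟩ : W) = u := Subtype.ext this
      rw [h2]
    | succ k ihk =>
      intro u hu
      obtain ⟨g, hg0, hge, hg⟩ := exists_geo hG l u.1
      rw [hu] at hge hg
      have h1 : G.dist l (g k) = k := by
        have := hg 0 k (by omega) (by omega)
        rw [hg0] at this
        omega
      have h2 : g k ≠ v := by
        intro h
        have := hv u.1
        rw [← h] at this
        omega
      have h3 := ihk ⟨g k, h2⟩ h1
      refine h3.trans (Adj.reachable ?_)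
      rw [hadjH, adj_iff]
      have := hg k (k + 1) (by omega) le_rfl
      rw [hge] at this
      show G.dist (g k) u.1 = 1
      omega
  have hHconn : H.Connected := by
    have : Nonempty W := ⟨⟨l, hlne⟩⟩
    exact Connected.mk fun x y => (hreach _ x rfl).symm.trans (hreach _ y rfl)
  have hdist : ∀ x y : W, G.dist x.1 y.1 ≤ H.dist x y := by
    intro x y
    obtain ⟨p, hp⟩ := hHconn.exists_walk_length_eq_dist x y
    let f : H →g G := ⟨Subtype.val, fun {a b} h => (hadjH a b).mp h⟩
    have := SimpleGraph.dist_le (p.map f)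
    rw [Walk.length_map, hp] at this
    exact this
  have hWcard : Fintype.card W < n := by
    rw [← hcard]
    have : Fintype.card W = Fintype.card {u : V // u ≠ v} := Fintype.card_congr (Equiv.refl _)
    rw [this]
    exact Fintype.card_subtype_lt (p := fun u => u ≠ v) (x := v) (by simp)
  by_cases hH2 : ∀ u : W, ∃ w : W, r ≤ H.dist u w
  · have hav : ∀ y : W, H.Adj ⟨l, hlne⟩ y → y.1 = a := fun y hy => hl y.1 ((hadjH _ _).mp hy)
    have hex : ∃ a' : W, ∀ y : W, H.Adj ⟨l, hlne⟩ y → y = a' := by
      by_cases h : ∃ y : W, H.Adj ⟨l, hlne⟩ y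
      · obtain ⟨y0, hy0⟩ := h
        exact ⟨y0, fun y hy => Subtype.ext ((hav y hy).trans (hav y0 hy0).symm)⟩
      · exact ⟨⟨l, hlne⟩, fun y hy => absurd ⟨y, hy⟩ h⟩
    obtain ⟨a', ha'⟩ := hex
    obtain ⟨m, S, hS, hm⟩ := ih _ hWcard W H rfl hHconn r hr hH2 ⟨l, hlne⟩ a' ha'
    exact ⟨m, _, hS.map Subtype.val Subtype.val_injective (fun a b => (hadjH a b).symm), hm⟩
  · push Not at hH2
    obtain ⟨x, hx⟩ := hH2
    have hx' : ∀ u, u ≠ v → G.dist x.1 u ≤ r - 1 := by
      intro u hu
      have h1 := hdist x ⟨u, hu⟩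
      have h2 := hx ⟨u, hu⟩
      have h3 : G.dist x.1 u ≤ H.dist x ⟨u, hu⟩ := h1
      omega
    have hxv : G.dist x.1 v = r := by
      obtain ⟨w, hw⟩ := hecc x.1
      have hwv : w = v := by
        by_contra h
        have := hx' w h
        omega
      rw [hwv] at hw
      obtain ⟨g, hg0, hge, hg⟩ := exists_geo hG l v
      set R := G.dist l v with hR
      have h1 := hg (R - 1) R (by omega) le_rfl
      rw [hge] at h1
      have h2 : g (R - 1) ≠ v := by
        intro h
        rw [h, SimpleGraph.dist_self] at h1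
        omega
      have h3 := hx' _ h2
      have h4 := tri hG x.1 (g (R - 1)) v
      omega
    rcases step1 hG r hr x.1 v hxv hx' hecc with h | ⟨c, hc⟩
    · obtain ⟨m, S, hS, hm⟩ := h
      exact ⟨m, S, hS, hm⟩
    · exact step2 hG r hr c hc l a hl

/-- Every finite connected graph `G` with at least two vertices satisfies
`tree(G) ≥ 2 rad(G) / δ(G)`. -/
theorem result {V : Type*} [Fintype V] [Nontrivial V] (G : SimpleGraph V) [DecidableRel G.Adj]
    (hG : G.Connected) :
    ∃ r : ℕ, G.radius = (r : ℕ∞) ∧ 2 * (r : ℝ) / (G.minDegree : ℝ) ≤ (treeNumber G : ℝ) := by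
  classical
  have hne : G.radius ≠ ⊤ := radius_ne_top_iff.mpr hG
  obtain ⟨r, hr⟩ := ENat.ne_top_iff_exists.mp hne
  refine ⟨r, hr.symm, ?_⟩
  have hbdd : BddAbove {n | ∃ S : Set V, (G.induce S).IsTree ∧ S.ncard = n} := by
    refine ⟨Fintype.card V, ?_⟩
    rintro n ⟨S, -, rfl⟩
    rw [← Nat.card_eq_fintype_card, ← Set.ncard_univ]
    exact Set.ncard_le_ncard (Set.subset_univ S)
  have hTS : ∀ n S, TS G n S → n ≤ treeNumber G := fun n S h =>
    le_csSup hbdd ⟨S, h.isTree, h.ncard.2⟩
  have hecc : ∀ u, ∃ w, r ≤ G.dist u w := by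
    intro u
    obtain ⟨w, hw⟩ := G.exists_edist_eq_eccent_of_finite u
    refine ⟨w, ?_⟩
    have h1 : G.radius ≤ G.edist u w := by rw [hw]; exact radius_le_eccent
    rw [← hr, ← (hG.preconnected u w).coe_dist_eq_edist] at h1
    exact_mod_cast h1
  have hpath : r + 1 ≤ treeNumber G := by
    obtain ⟨u⟩ := hG.nonempty
    obtain ⟨w, hw⟩ := hecc u
    obtain ⟨g, hg0, hge, hg⟩ := exists_geo hG u w
    have hIP : IP G g (G.dist u w + 1) := by
      apply ip_of_dist
      intro i j hij hj
      have := hg i j (by omega) (by omega)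
      omega
    have := hTS _ _ (hIP.ts (by omega))
    omega
  have hpathR : (r : ℝ) + 1 ≤ treeNumber G := by exact_mod_cast hpath
  rcases Nat.eq_zero_or_pos G.minDegree with h0 | h0
  · rw [h0]
    simp
  rcases Nat.lt_or_ge G.minDegree 2 with h1 | h1
  · have h1' : G.minDegree = 1 := by omega
    rw [h1', Nat.cast_one, div_one]
    suffices h : 2 * r ≤ treeNumber G by exact_mod_cast h
    rcases Nat.lt_or_ge r 2 with hr2 | hr2
    · omega
    have : Nonempty V := hG.nonempty
    obtain ⟨l, hl⟩ := G.exists_minimal_degree_vertex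
    rw [h1'] at hl
    obtain ⟨a, ha, hau⟩ := (degree_eq_one_iff_existsUnique_adj).mp hl.symm
    obtain ⟨m, S, hS, hm⟩ := leaf_tree _ V G rfl hG r hr2 hecc l a hau
    exact hm.trans (hTS m S hS)
  · have h2 : (2 : ℝ) ≤ G.minDegree := by exact_mod_cast h1
    rw [div_le_iff₀ (by linarith)]
    nlinarith [Nat.cast_nonneg (α := ℝ) r]

end Pool.Agent.Results.MP_40785c_co.LeafTree
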